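import Pool.Agent.Helper23.MV.StC

/-!
# Project MV (MP_b454d1_nt), module BSL (helper28): Bessel's inequality on a part of the circle
-/

set_option autoImplicit false

namespace Pool.Agent.Helper28.MV

open Finset MeasureTheory
open Pool.Agent.Helper48.BK (ex th Sx Apx)
open Pool.Agent.Helper23.MV

private lemma ex_add_BSL (a b : ℝ) : ex a * ex b = ex (a + b) := by
  unfold ex
  rw [← Complex.exp_add]
  congr 1
  push_cast
  ring

private lemma conj_ex_BSL (a : ℝ) : (starRingEnd ℂ) (ex a) = ex (-a) := by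
  unfold ex
  rw [← Complex.exp_conj]
  congr 1
  simp only [map_mul, Complex.conj_ofReal, Complex.conj_I, map_ofNat]
  push_cast
  ring

private lemma cont_ex_BSL : Continuous ex := by
  unfold ex
  fun_prop

private lemma int_ex_BSL (k : ℤ) :
    ∫ α in Set.Icc (0 : ℝ) 1, ex ((k : ℝ) * α) = if k = 0 then 1 else 0 := by
  rw [integral_Icc_eq_integral_Ioc, ← intervalIntegral.integral_of_le zero_le_one]
  split_ifs with hk
  · subst hk
    simp [ex]
  · have hc : (2 * Real.pi * k * Complex.I : ℂ) ≠ 0 := by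
      have hpi : (Real.pi : ℂ) ≠ 0 := by exact_mod_cast Real.pi_ne_zero
      have hk' : (k : ℂ) ≠ 0 := by exact_mod_cast hk
      simp [hpi, hk']
    have e : (fun α : ℝ => ex ((k : ℝ) * α)) =
        fun α : ℝ => Complex.exp ((2 * Real.pi * k * Complex.I : ℂ) * α) := by
      funext α
      unfold ex
      congr 1
      push_cast
      ring
    have e1 : Complex.exp ((2 * Real.pi * k * Complex.I : ℂ) * ((1 : ℝ) : ℂ)) = 1 := by
      have := Complex.exp_int_mul_two_pi_mul_I k
      rw [← this]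
      congr 1
      push_cast
      ring
    rw [e, integral_exp_mul_complex hc, e1]
    simp

private lemma nsq_BSL (a b : ℂ) :
    ‖a - b‖ ^ 2 = ‖a‖ ^ 2 - 2 * (a * (starRingEnd ℂ) b).re + ‖b‖ ^ 2 := by
  rw [← Complex.normSq_eq_norm_sq, ← Complex.normSq_eq_norm_sq, ← Complex.normSq_eq_norm_sq,
    Complex.normSq_sub]
  ring

private lemma par_BSL (S : Finset ℕ) (c : ℕ → ℂ) :
    ∫ α in Set.Icc (0 : ℝ) 1, ‖∑ N ∈ S, c N * ex ((N : ℝ) * α)‖ ^ 2 = ∑ N ∈ S, ‖c N‖ ^ 2 := by
  classical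
  have h1 : ∀ α : ℝ, ((‖∑ N ∈ S, c N * ex ((N : ℝ) * α)‖ ^ 2 : ℝ) : ℂ) =
      ∑ N ∈ S, ∑ N' ∈ S, c N * (starRingEnd ℂ) (c N') *
        ex ((((N : ℤ) - (N' : ℤ) : ℤ) : ℝ) * α) := by
    intro α
    rw [← Complex.normSq_eq_norm_sq, ← Complex.mul_conj, map_sum, Finset.sum_mul_sum]
    refine Finset.sum_congr rfl fun N _ => Finset.sum_congr rfl fun N' _ => ?_
    rw [map_mul, conj_ex_BSL]
    calc c N * ex ((N : ℝ) * α) * ((starRingEnd ℂ) (c N') * ex (-((N' : ℝ) * α))) =
        c N * (starRingEnd ℂ) (c N') * (ex ((N : ℝ) * α) * ex (-((N' : ℝ) * α))) := by ring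
      _ = _ := by
          rw [ex_add_BSL]
          congr 2
          push_cast
          ring
  have hint : ∀ k : ℤ, ∀ z : ℂ, IntegrableOn (fun α : ℝ => z * ex ((k : ℝ) * α))
      (Set.Icc (0 : ℝ) 1) := fun k z =>
    (continuous_const.mul (cont_ex_BSL.comp (continuous_const.mul continuous_id))).integrableOn_Icc
  have h2 : (((∫ α in Set.Icc (0 : ℝ) 1, ‖∑ N ∈ S, c N * ex ((N : ℝ) * α)‖ ^ 2 : ℝ)) : ℂ) =
      ((∑ N ∈ S, ‖c N‖ ^ 2 : ℝ) : ℂ) := by
    rw [← integral_complex_ofReal]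
    simp only [h1]
    rw [integral_finsetSum _ fun N _ => integrable_finsetSum _ fun N' _ => hint _ _]
    rw [Complex.ofReal_sum]
    refine Finset.sum_congr rfl fun N hN => ?_
    rw [integral_finsetSum _ fun N' _ => hint _ _, Finset.sum_eq_single N]
    · rw [integral_const_mul, int_ex_BSL]
      simp [Complex.mul_conj, Complex.normSq_eq_norm_sq]
    · intro N' _ hne
      rw [integral_const_mul, int_ex_BSL, if_neg (by
        intro h
        apply hne
        have : (N : ℤ) = N' := sub_eq_zero.mp h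
        exact_mod_cast this.symm), mul_zero]
    · intro h
      exact absurd hN h
  exact_mod_cast h2

theorem hBsl : StBsl := by
  classical
  intro F M S hF hM hM1
  set c : ℕ → ℂ := fun N => ∫ α in M, F α * ex (-(N * α)) with hc
  set G : ℝ → ℂ := M.indicator F with hG
  set T : ℝ → ℂ := fun α => ∑ N ∈ S, c N * ex ((N : ℝ) * α) with hT
  have hTc : Continuous T := by
    rw [hT]
    exact continuous_finsetSum _ fun N _ =>
      continuous_const.mul (cont_ex_BSL.comp (continuous_const.mul continuous_id))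
  set J : Set ℝ := Set.Icc (0 : ℝ) 1 with hJ
  have hind : ∀ H : ℝ → ℂ, Continuous H → IntegrableOn (M.indicator H) J ∧
      ∫ α in J, M.indicator H α = ∫ α in M, H α := by
    intro H hH
    refine ⟨(hH.integrableOn_Icc).indicator hM, ?_⟩
    rw [setIntegral_indicator hM, Set.inter_eq_self_of_subset_right hM1]
  -- the three integrals
  have e1 : ∫ α in J, ‖G α‖ ^ 2 = ∫ α in M, ‖F α‖ ^ 2 := by
    have e : (fun α => ‖G α‖ ^ 2) = M.indicator (fun α => ‖F α‖ ^ 2) := by
      funext α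
      by_cases h : α ∈ M
      · simp [hG, h]
      · simp [hG, h]
    rw [e, setIntegral_indicator hM, Set.inter_eq_self_of_subset_right hM1]
  have i1 : IntegrableOn (fun α => ‖G α‖ ^ 2) J := by
    have e : (fun α => ‖G α‖ ^ 2) = M.indicator (fun α => ‖F α‖ ^ 2) := by
      funext α
      by_cases h : α ∈ M
      · simp [hG, h]
      · simp [hG, h]
    rw [e]
    exact ((hF.norm.pow 2).integrableOn_Icc).indicator hM
  have eGT : (fun α => G α * (starRingEnd ℂ) (T α)) = fun α => ∑ N ∈ S, (starRingEnd ℂ) (c N) *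
      M.indicator (fun α => F α * ex (-(N * α))) α := by
    funext α
    rw [hT]
    simp only [map_sum, map_mul, conj_ex_BSL]
    rw [Finset.mul_sum]
    refine Finset.sum_congr rfl fun N _ => ?_
    by_cases h : α ∈ M
    · simp only [hG, Set.indicator_of_mem h]
      ring
    · simp only [hG, Set.indicator_of_notMem h]
      ring
  have hcont : ∀ N : ℕ, Continuous fun α : ℝ => F α * ex (-(N * α)) := fun N =>
    hF.mul (cont_ex_BSL.comp ((continuous_const.mul continuous_id).neg))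
  have i2 : IntegrableOn (fun α => G α * (starRingEnd ℂ) (T α)) J := by
    rw [eGT]
    exact integrable_finsetSum _ fun N _ => ((hind _ (hcont N)).1).const_mul _
  have e2 : ∫ α in J, G α * (starRingEnd ℂ) (T α) = ((∑ N ∈ S, ‖c N‖ ^ 2 : ℝ) : ℂ) := by
    rw [eGT, integral_finsetSum _ fun N _ => ((hind _ (hcont N)).1).const_mul _,
      Complex.ofReal_sum]
    refine Finset.sum_congr rfl fun N _ => ?_
    rw [integral_const_mul, (hind _ (hcont N)).2]
    show (starRingEnd ℂ) (c N) * c N = _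
    rw [mul_comm, Complex.mul_conj, Complex.normSq_eq_norm_sq]
  have i3 : IntegrableOn (fun α => ‖T α‖ ^ 2) J := (hTc.norm.pow 2).integrableOn_Icc
  have e3 : ∫ α in J, ‖T α‖ ^ 2 = ∑ N ∈ S, ‖c N‖ ^ 2 := par_BSL S c
  have i2' : IntegrableOn (fun α => 2 * (G α * (starRingEnd ℂ) (T α)).re) J :=
    (i2.re).const_mul 2
  have hnn : 0 ≤ ∫ α in J, ‖G α - T α‖ ^ 2 := integral_nonneg fun α => by positivity
  have hre : ∫ α in J, (G α * (starRingEnd ℂ) (T α)).re = ∑ N ∈ S, ‖c N‖ ^ 2 := by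
    have h := integral_re (𝕜 := ℂ) i2
    simp only [RCLike.re_to_complex] at h
    rw [h, e2, Complex.ofReal_re]
  have hexp : ∫ α in J, ‖G α - T α‖ ^ 2 =
      (∫ α in J, ‖G α‖ ^ 2) - 2 * (∫ α in J, (G α * (starRingEnd ℂ) (T α)).re) +
        ∫ α in J, ‖T α‖ ^ 2 := by
    simp only [nsq_BSL]
    have i4 : IntegrableOn (fun α => ‖G α‖ ^ 2 - 2 * (G α * (starRingEnd ℂ) (T α)).re) J :=
      i1.sub i2'
    rw [integral_add i4 i3, integral_sub i1 i2', integral_const_mul]
  rw [hexp, e1, hre, e3] at hnn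
  show ∑ N ∈ S, ‖c N‖ ^ 2 ≤ _
  linarith

end Pool.Agent.Helper28.MV
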