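import Pool.Agent.Helper23.MV.StP

/-!
# Project MV (MP_b454d1_nt), module HG (helper28): mean square of `GA` over the good frequencies.
The lemmas before the theorem are copied from `Helper76/GK/M_HIF.lean`.
-/

set_option autoImplicit false

namespace Pool.Agent.Helper28.MV

open Finset ArithmeticFunction MeasureTheory Filter Topology
open Pool.Agent.Helper48.BK (ex th Sx Apx)
open Pool.Agent.Helper2.MR (ch)
open Pool.Agent.Helper15.AB (IsW)
open Pool.Agent.Helper23.GK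
open Pool.Agent.Helper23.MV

/-! ### the weight -/

private noncomputable def hh (x : ℝ) : ℝ := (1 + x ^ 2) ^ (-(5 / 8) : ℝ)

private lemma hh_pos (x : ℝ) : 0 < hh x := Real.rpow_pos_of_pos (by positivity) _

private lemma hh_int : Integrable hh := by
  have h := integrable_rpow_neg_one_add_norm_sq (E := ℝ) (μ := volume) (r := 5 / 4)
    (by norm_num)
  have e : hh = fun x : ℝ => ((1 : ℝ) + ‖x‖ ^ 2) ^ (-(5 / 4) / 2 : ℝ) := by
    funext x
    unfold hh
    rw [Real.norm_eq_abs, sq_abs]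
    norm_num
  rw [e]
  exact h

private lemma inv_le_hh (x : ℝ) : 1 / (1 + x ^ 2) ≤ hh x := by
  unfold hh
  have h1 : (1 : ℝ) ≤ 1 + x ^ 2 := by nlinarith [sq_nonneg x]
  rw [one_div, ← Real.rpow_neg_one]
  exact Real.rpow_le_rpow_of_exponent_le h1 (by norm_num)

private lemma inv_le_hh' (x Y : ℝ) (hY : 0 < Y) (hx : Y ≤ |x|) :
    1 / (1 + x ^ 2) ≤ Y ^ (-(3 / 4) : ℝ) * hh x := by
  unfold hh
  have h1 : (0 : ℝ) < 1 + x ^ 2 := by positivity
  have h2 : (1 : ℝ) / (1 + x ^ 2) = (1 + x ^ 2) ^ (-(3 / 8) : ℝ) * (1 + x ^ 2) ^ (-(5 / 8) : ℝ) := by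
    rw [← Real.rpow_add h1, one_div, ← Real.rpow_neg_one]
    norm_num
  rw [h2]
  apply mul_le_mul_of_nonneg_right _ (Real.rpow_nonneg h1.le _)
  have h3 : Y ^ (-(3 / 4) : ℝ) = (Y ^ 2) ^ (-(3 / 8) : ℝ) := by
    rw [← Real.rpow_natCast Y 2, ← Real.rpow_mul hY.le]
    norm_num
  rw [h3]
  apply Real.rpow_le_rpow_of_nonpos (by positivity) _ (by norm_num)
  have h4 : Y ^ 2 ≤ |x| ^ 2 := by gcongr
  rw [sq_abs] at h4
  linarith

/-! ### the abstract convolution bound -/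

private lemma kint (C : ℝ) : Integrable (fun x : ℝ => C / (1 + x ^ 2)) := by
  have h := integrable_inv_one_add_sq.const_mul C
  refine h.congr (Eventually.of_forall fun x => ?_)
  simp [div_eq_mul_inv]

private lemma kint_eq (C : ℝ) : ∫ x : ℝ, C / (1 + x ^ 2) = C * Real.pi := by
  have e : (fun x : ℝ => C / (1 + x ^ 2)) = fun x => C * (1 + x ^ 2)⁻¹ := by
    funext x
    rw [div_eq_mul_inv]
  rw [e, integral_const_mul, integral_univ_inv_one_add_sq]

private lemma cs_bound (C M : ℝ) (hC : 0 < C) (P : ℝ → ℂ) (hP : Continuous P)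
    (hM : ∀ t, ‖P t‖ ≤ M) (t : ℝ) :
    (∫ ξ : ℝ, C / (1 + ξ ^ 2) * ‖P (t - ξ)‖) ^ 2 ≤
      C * Real.pi * ∫ ξ : ℝ, C / (1 + ξ ^ 2) * ‖P (t - ξ)‖ ^ 2 := by
  have hM0 : 0 ≤ M := le_trans (norm_nonneg _) (hM 0)
  have hk0 : ∀ ξ : ℝ, 0 ≤ C / (1 + ξ ^ 2) := fun ξ => by positivity
  have hPc : Continuous fun ξ : ℝ => ‖P (t - ξ)‖ := by fun_prop
  have hkc : Continuous fun ξ : ℝ => C / (1 + ξ ^ 2) := by
    apply Continuous.div (by fun_prop) (by fun_prop)
    intro x
    positivity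
  have i1 : Integrable (fun ξ : ℝ => C / (1 + ξ ^ 2) * ‖P (t - ξ)‖) := by
    refine ((kint C).mul_const M).mono' (hkc.mul hPc).aestronglyMeasurable
      (Eventually.of_forall fun ξ => ?_)
    rw [Real.norm_of_nonneg (mul_nonneg (hk0 ξ) (norm_nonneg _))]
    exact mul_le_mul_of_nonneg_left (hM _) (hk0 ξ)
  have i2 : Integrable (fun ξ : ℝ => C / (1 + ξ ^ 2) * ‖P (t - ξ)‖ ^ 2) := by
    refine ((kint C).mul_const (M ^ 2)).mono' (hkc.mul (hPc.pow 2)).aestronglyMeasurable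
      (Eventually.of_forall fun ξ => ?_)
    rw [Real.norm_of_nonneg (mul_nonneg (hk0 ξ) (by positivity))]
    exact mul_le_mul_of_nonneg_left (pow_le_pow_left₀ (norm_nonneg _) (hM _) 2) (hk0 ξ)
  set p := ∫ ξ : ℝ, C / (1 + ξ ^ 2) * ‖P (t - ξ)‖ with hp
  set s := ∫ ξ : ℝ, C / (1 + ξ ^ 2) * ‖P (t - ξ)‖ ^ 2 with hs
  have hκ : 0 < C * Real.pi := by positivity
  set x := p / (C * Real.pi) with hx
  have h1 : 0 ≤ ∫ ξ : ℝ, C / (1 + ξ ^ 2) * (x - ‖P (t - ξ)‖) ^ 2 :=
    integral_nonneg fun ξ => mul_nonneg (hk0 ξ) (sq_nonneg _)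
  have h2 : ∫ ξ : ℝ, C / (1 + ξ ^ 2) * (x - ‖P (t - ξ)‖) ^ 2 =
      x ^ 2 * (C * Real.pi) - 2 * x * p + s := by
    have e : (fun ξ : ℝ => C / (1 + ξ ^ 2) * (x - ‖P (t - ξ)‖) ^ 2) = fun ξ =>
        (x ^ 2 * (C / (1 + ξ ^ 2)) - 2 * x * (C / (1 + ξ ^ 2) * ‖P (t - ξ)‖)) +
          C / (1 + ξ ^ 2) * ‖P (t - ξ)‖ ^ 2 := by
      funext ξ
      ring
    have j1 : Integrable (fun ξ : ℝ => x ^ 2 * (C / (1 + ξ ^ 2))) := (kint C).const_mul _
    have j2 : Integrable (fun ξ : ℝ => 2 * x * (C / (1 + ξ ^ 2) * ‖P (t - ξ)‖)) :=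
      i1.const_mul _
    have j3 : Integrable (fun ξ : ℝ => x ^ 2 * (C / (1 + ξ ^ 2)) -
        2 * x * (C / (1 + ξ ^ 2) * ‖P (t - ξ)‖)) := j1.sub j2
    rw [e, integral_add j3 i2, integral_sub j1 j2, integral_const_mul,
      integral_const_mul, kint_eq]
  rw [h2] at h1
  have h3 : p = x * (C * Real.pi) := by
    rw [hx]
    field_simp
  have h4 : p ^ 2 = C * Real.pi * (x ^ 2 * (C * Real.pi)) := by
    rw [h3]
    ring
  have h5 : 2 * x * p = 2 * (x ^ 2 * (C * Real.pi)) := by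
    rw [h3]
    ring
  rw [h5] at h1
  rw [h4]
  apply mul_le_mul_of_nonneg_left _ hκ.le
  linarith

private lemma conv_bound {ι : Type} (E : Finset ι) (K : ℝ → ℂ) (C : ℝ) (hC : 0 < C)
    (hK : ∀ ξ, ‖K ξ‖ ≤ C / (1 + ξ ^ 2)) (P : ι → ℝ → ℂ)
    (hP : ∀ e ∈ E, Continuous (P e)) (M : ℝ) (hM : ∀ e ∈ E, ∀ t, ‖P e t‖ ≤ M)
    (φ : ℝ → ℂ) (hφ : ∀ ξ, ‖φ ξ‖ = 1) (c : ι → ℂ) (hc : ∀ e ∈ E, ‖c e‖ ≤ 1)
    (G : ℝ → ℂ) (hG : ∀ t, G t = ∑ e ∈ E, c e * ∫ ξ : ℝ, K ξ * φ ξ * P e (t - ξ))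
    (R : Set ℝ) (hR : volume R ≠ ⊤) (B : ℝ)
    (hB : ∀ e ∈ E, ∀ ξ : ℝ, C / (1 + ξ ^ 2) * ∫ t in R, ‖P e (t - ξ)‖ ^ 2 ≤ B * hh ξ) :
    ∫ t in R, ‖G t‖ ^ 2 ≤ (E.card : ℝ) ^ 2 * (C * Real.pi) * (B * ∫ ξ, hh ξ) := by
  classical
  have : IsFiniteMeasure (volume.restrict R) := ⟨by simpa using hR.lt_top⟩
  have hk0 : ∀ ξ : ℝ, 0 ≤ C / (1 + ξ ^ 2) := fun ξ => by positivity
  have hkc : Continuous fun ξ : ℝ => C / (1 + ξ ^ 2) := by
    apply Continuous.div (by fun_prop) (by fun_prop)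
    intro x
    positivity
  -- the double integral
  have hF : ∀ e ∈ E, Integrable (Function.uncurry fun t ξ : ℝ =>
      C / (1 + ξ ^ 2) * ‖P e (t - ξ)‖ ^ 2) ((volume.restrict R).prod volume) := by
    intro e he
    have hPe := hP e he
    have h1 : Integrable (fun z : ℝ × ℝ => M ^ 2 * (C / (1 + z.2 ^ 2)))
        ((volume.restrict R).prod volume) := by
      exact (integrable_const (M ^ 2)).mul_prod (kint C)
    refine h1.mono' ?_ (Eventually.of_forall fun z => ?_)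
    · apply Continuous.aestronglyMeasurable
      have h2 : Continuous fun z : ℝ × ℝ => C / (1 + z.2 ^ 2) := hkc.comp continuous_snd
      have h3 : Continuous fun z : ℝ × ℝ => ‖P e (z.1 - z.2)‖ ^ 2 :=
        ((hPe.comp (continuous_fst.sub continuous_snd)).norm).pow 2
      exact h2.mul h3
    · show ‖C / (1 + z.2 ^ 2) * ‖P e (z.1 - z.2)‖ ^ 2‖ ≤ _
      rw [Real.norm_of_nonneg (mul_nonneg (hk0 _) (by positivity)), mul_comm]
      apply mul_le_mul_of_nonneg_right _ (hk0 _)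
      exact pow_le_pow_left₀ (norm_nonneg _) (hM e he _) 2
  have hswap : ∀ e ∈ E, ∫ t in R, ∫ ξ : ℝ, C / (1 + ξ ^ 2) * ‖P e (t - ξ)‖ ^ 2 ≤
      B * ∫ ξ, hh ξ := by
    intro e he
    rw [integral_integral_swap (hF e he), ← integral_const_mul]
    apply integral_mono_of_nonneg
    · exact Eventually.of_forall fun ξ => integral_nonneg fun t =>
        mul_nonneg (hk0 _) (by positivity)
    · exact hh_int.const_mul B
    · refine Eventually.of_forall fun ξ => ?_
      show ∫ t in R, C / (1 + ξ ^ 2) * ‖P e (t - ξ)‖ ^ 2 ≤ B * hh ξ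
      rw [integral_const_mul]
      exact hB e he ξ
  -- pointwise
  have hpt : ∀ t, ‖G t‖ ^ 2 ≤ (E.card : ℝ) * (C * Real.pi) *
      ∑ e ∈ E, ∫ ξ : ℝ, C / (1 + ξ ^ 2) * ‖P e (t - ξ)‖ ^ 2 := by
    intro t
    have h1 : ‖G t‖ ≤ ∑ e ∈ E, ∫ ξ : ℝ, C / (1 + ξ ^ 2) * ‖P e (t - ξ)‖ := by
      rw [hG]
      refine (norm_sum_le _ _).trans (Finset.sum_le_sum fun e he => ?_)
      rw [norm_mul]
      have h2 : ‖∫ ξ : ℝ, K ξ * φ ξ * P e (t - ξ)‖ ≤
          ∫ ξ : ℝ, C / (1 + ξ ^ 2) * ‖P e (t - ξ)‖ := by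
        have hPe := hP e he
        apply norm_integral_le_of_norm_le
        · refine ((kint C).mul_const M).mono' ?_ (Eventually.of_forall fun ξ => ?_)
          · exact (hkc.mul (by fun_prop : Continuous fun ξ : ℝ => ‖P e (t - ξ)‖)
              ).aestronglyMeasurable
          · rw [Real.norm_of_nonneg (mul_nonneg (hk0 _) (norm_nonneg _))]
            exact mul_le_mul_of_nonneg_left (hM e he _) (hk0 _)
        · refine Eventually.of_forall fun ξ => ?_
          show ‖K ξ * φ ξ * P e (t - ξ)‖ ≤ C / (1 + ξ ^ 2) * ‖P e (t - ξ)‖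
          rw [norm_mul, norm_mul, hφ, mul_one]
          exact mul_le_mul_of_nonneg_right (hK ξ) (norm_nonneg _)
      calc ‖c e‖ * ‖∫ ξ : ℝ, K ξ * φ ξ * P e (t - ξ)‖ ≤
          1 * ‖∫ ξ : ℝ, K ξ * φ ξ * P e (t - ξ)‖ := by
            gcongr
            exact hc e he
        _ ≤ _ := by rw [one_mul]; exact h2
    calc ‖G t‖ ^ 2 ≤ (∑ e ∈ E, ∫ ξ : ℝ, C / (1 + ξ ^ 2) * ‖P e (t - ξ)‖) ^ 2 := by
          gcongr
      _ ≤ (E.card : ℝ) * ∑ e ∈ E, (∫ ξ : ℝ, C / (1 + ξ ^ 2) * ‖P e (t - ξ)‖) ^ 2 :=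
          sq_sum_le_card_mul_sum_sq
      _ ≤ (E.card : ℝ) * ∑ e ∈ E, (C * Real.pi *
          ∫ ξ : ℝ, C / (1 + ξ ^ 2) * ‖P e (t - ξ)‖ ^ 2) := by
          apply mul_le_mul_of_nonneg_left _ (Nat.cast_nonneg _)
          exact Finset.sum_le_sum fun e he => cs_bound C M hC (P e) (hP e he) (hM e he) t
      _ = _ := by
          rw [← Finset.mul_sum]
          ring
  have hint : ∀ e ∈ E, Integrable (fun t => ∫ ξ : ℝ, C / (1 + ξ ^ 2) * ‖P e (t - ξ)‖ ^ 2)
      (volume.restrict R) := fun e he => (hF e he).integral_prod_left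
  calc ∫ t in R, ‖G t‖ ^ 2 ≤ ∫ t in R, (E.card : ℝ) * (C * Real.pi) *
        ∑ e ∈ E, ∫ ξ : ℝ, C / (1 + ξ ^ 2) * ‖P e (t - ξ)‖ ^ 2 := by
        apply integral_mono_of_nonneg
        · exact Eventually.of_forall fun t => by positivity
        · exact (integrable_finsetSum _ hint).const_mul _
        · exact Eventually.of_forall hpt
    _ = (E.card : ℝ) * (C * Real.pi) *
        ∑ e ∈ E, ∫ t in R, ∫ ξ : ℝ, C / (1 + ξ ^ 2) * ‖P e (t - ξ)‖ ^ 2 := by
        rw [integral_const_mul, integral_finsetSum _ hint]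
    _ ≤ (E.card : ℝ) * (C * Real.pi) * ∑ e ∈ E, B * ∫ ξ, hh ξ := by
        gcongr with e he
        exact hswap e he
    _ = _ := by
        rw [Finset.sum_const, nsmul_eq_mul]
        ring

/-! ### translations of set integrals -/

private lemma shift_le (g : ℝ → ℝ) (hg : ∀ t, 0 ≤ g t) (S T : Set ℝ) (hS : MeasurableSet S)
    (hT : MeasurableSet T) (ξ : ℝ) (hST : ∀ t, t + ξ ∈ S → t ∈ T) (hi : IntegrableOn g T) :
    ∫ t in S, g (t - ξ) ≤ ∫ t in T, g t := by
  rw [← integral_indicator hS, ← integral_indicator hT,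
    ← integral_add_right_eq_self (S.indicator fun t => g (t - ξ)) ξ]
  apply integral_mono_of_nonneg
  · exact Eventually.of_forall fun t => Set.indicator_nonneg (fun _ _ => hg _) _
  · exact (integrable_indicator_iff hT).2 hi
  · refine Eventually.of_forall fun t => ?_
    show S.indicator (fun t => g (t - ξ)) (t + ξ) ≤ T.indicator g t
    by_cases h : t + ξ ∈ S
    · rw [Set.indicator_of_mem h, Set.indicator_of_mem (hST t h)]
      simp
    · rw [Set.indicator_of_notMem h]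
      exact Set.indicator_nonneg (fun _ _ => hg _) _

/-! ### block polynomials -/

private lemma ch_norm' (t : ℝ) (n : ℕ) : ‖ch t n‖ = 1 := by
  unfold ch
  exact Complex.norm_exp_ofReal_mul_I _

private lemma ch_cont' (n : ℕ) : Continuous (fun t : ℝ => ch t n) := by
  unfold ch
  fun_prop

private lemma AA_cont (a : ℕ → ℂ) (e : ℕ) : Continuous (AA a e) := by
  unfold AA
  exact continuous_finsetSum _ fun n _ => (continuous_const.mul (ch_cont' n)).div_const _

private lemma PP_cont {q : ℕ} (χ : DirichletCharacter ℂ q) (e : Fin 4 → ℕ) :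
    Continuous (PP χ e) := by
  unfold PP
  exact (((AA_cont _ _).mul (AA_cont _ _)).mul (AA_cont _ _)).mul (AA_cont _ _)

private lemma PP_bd (h0 : StSu0) {q : ℕ} (χ : DirichletCharacter ℂ q) (e : Fin 4 → ℕ) (t : ℝ) :
    ‖PP χ e t‖ ≤ 1 + e 2 := by
  unfold PP
  obtain ⟨a1, -, -⟩ := h0 q χ (e 0) t
  obtain ⟨a2, -, -⟩ := h0 q χ (e 1) t
  obtain ⟨-, -, a3⟩ := h0 q χ (e 2) t
  obtain ⟨-, a4, -⟩ := h0 q χ (e 3) t
  rw [norm_mul, norm_mul, norm_mul]
  calc ‖AA (cmu χ) (e 0) t‖ * ‖AA (cmu χ) (e 1) t‖ * ‖AA (clog χ) (e 2) t‖ *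
      ‖AA (cone χ) (e 3) t‖ ≤ 1 * 1 * (1 + e 2) * 1 := by gcongr
    _ = 1 + e 2 := by ring

private lemma PP_mean (hm : StMea) : ∃ C : ℕ, ∀ {q : ℕ} (χ : DirichletCharacter ℂ q)
    (e : Fin 4 → ℕ) (K T : ℝ), 1 ≤ T → 1 ≤ K → (e 2 : ℝ) ≤ K →
    ∫ t in (-T)..T, ‖PP χ e t‖ ^ 2 ≤
      C * K ^ 8 * (T / 2 ^ (∑ i, e i) + 1) * (1 + ∑ i, (e i : ℝ)) ^ C := by
  obtain ⟨C, hC⟩ := hm
  refine ⟨C, fun {q} χ e K T hT hK he => ?_⟩
  have h := hC ![cmu χ, cmu χ, clog χ, cone χ] e univ K T hT hK ?_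
  · have e1 : ∀ t, ∏ i, ‖AA (![cmu χ, cmu χ, clog χ, cone χ] i) (e i) t‖ ^ 2 =
        ‖PP χ e t‖ ^ 2 := by
      intro t
      rw [Fin.prod_univ_four]
      unfold PP
      simp only [norm_mul, Matrix.cons_val_zero, Matrix.cons_val_one, Matrix.cons_val]
      ring
    simp only [e1] at h
    exact h
  · have hχ : ∀ n : ℕ, ‖χ (n : ZMod q)‖ ≤ 1 := fun n => DirichletCharacter.norm_le_one _ _
    have hmu : ∀ n : ℕ, ‖cmu χ n‖ ≤ K := by
      intro n
      unfold cmu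
      rw [norm_mul, Complex.norm_intCast]
      have h1 : |((moebius n : ℤ) : ℝ)| ≤ 1 := by
        have := abs_moebius_le_one (n := n)
        exact_mod_cast this
      calc |((moebius n : ℤ) : ℝ)| * ‖χ (n : ZMod q)‖ ≤ 1 * 1 := by
            gcongr
            exact hχ n
        _ ≤ K := by linarith
    intro i
    fin_cases i
    · intro n _
      exact hmu n
    · intro n _
      exact hmu n
    · intro n hn
      show ‖clog χ n‖ ≤ K
      unfold clog
      rw [norm_mul]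
      have hn2 : n ≤ 2 ^ (e 2) := by
        have hn' : n ∈ blk2 (e 2) := hn
        unfold blk2 at hn'
        split_ifs at hn' with h
        · simp only [Finset.mem_singleton] at hn'
          rw [h, hn']
          norm_num
        · exact (Finset.mem_Ioc.1 hn').2
      have h1 : 0 ≤ Real.log n := Real.log_natCast_nonneg n
      have h2 : Real.log n ≤ e 2 := by
        rcases Nat.eq_zero_or_pos n with h0 | h0
        · rw [h0]
          simp
        · calc Real.log n ≤ Real.log ((2 : ℝ) ^ (e 2)) := by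
                apply Real.log_le_log (by exact_mod_cast h0)
                exact_mod_cast hn2
            _ = e 2 * Real.log 2 := Real.log_pow _ _
            _ ≤ e 2 * 1 := by
                gcongr
                have := Real.log_two_lt_d9
                linarith
            _ = e 2 := mul_one _
      rw [Complex.norm_real, Real.norm_of_nonneg h1]
      calc ‖χ (n : ZMod q)‖ * Real.log n ≤ 1 * K := by
            apply mul_le_mul (hχ n) (h2.trans he) h1 (by norm_num)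
        _ = K := one_mul K
    · intro n _
      show ‖cone χ n‖ ≤ K
      unfold cone
      exact (hχ n).trans hK

/-! ### large parameters -/

private lemma ev_log (c r : ℝ) (n : ℕ) (hr : 0 < r) :
    ∀ᶠ X : ℕ in atTop, c * Real.log X ^ n ≤ (X : ℝ) ^ r := by
  have h := isLittleO_log_rpow_rpow_atTop (n : ℝ) hr
  have h1 : ∀ᶠ x : ℝ in atTop, c * Real.log x ^ n ≤ x ^ r := by
    have h2 := h.bound (c := 1 / (|c| + 1)) (by positivity)
    filter_upwards [h2, eventually_ge_atTop (1 : ℝ)] with x hx hx1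
    rw [Real.rpow_natCast] at hx
    have h3 : 0 ≤ Real.log x ^ n := pow_nonneg (Real.log_nonneg hx1) _
    have h4 : 0 ≤ x ^ r := Real.rpow_nonneg (by linarith) _
    rw [Real.norm_of_nonneg h3, Real.norm_of_nonneg h4] at hx
    have h5 : c * Real.log x ^ n ≤ (|c| + 1) * Real.log x ^ n := by
      gcongr
      have := le_abs_self c
      linarith
    calc c * Real.log x ^ n ≤ (|c| + 1) * Real.log x ^ n := h5
      _ ≤ (|c| + 1) * (1 / (|c| + 1) * x ^ r) := by gcongr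
      _ = x ^ r := by field_simp
  exact tendsto_natCast_atTop_atTop.eventually h1

/-- the minimal exponent -/
private lemma exists_u (X : ℕ) (hX : 1 ≤ X) (hL : 5 ≤ Real.log X) : ∃ u : ℕ, 3 * X ≤ 4 ^ u ∧
    (2 : ℝ) ^ u ≤ 4 * √X ∧ (2 * u + 1 : ℝ) ≤ 7 * Real.log X := by
  refine ⟨Nat.clog 4 (3 * X), Nat.le_pow_clog (by norm_num) _, ?_, ?_⟩
  all_goals
    set u := Nat.clog 4 (3 * X) with hu
    have h1 : 4 ^ u < 12 * X := by
      have h2 := Nat.pow_pred_clog_lt_self (b := 4) (by norm_num) (x := 3 * X) (by omega)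
      rw [← hu] at h2
      have h3 : 0 < u := by
        rw [hu]
        exact Nat.clog_pos (by norm_num) (by omega)
      obtain ⟨v, hv⟩ : ∃ v, u = v + 1 := ⟨u - 1, by omega⟩
      rw [hv] at h2 ⊢
      simp only [Nat.pred_eq_sub_one, Nat.add_sub_cancel] at h2
      rw [pow_succ]
      omega
    have h1' : (4 : ℝ) ^ u ≤ 12 * X := by exact_mod_cast h1.le
  · have hx0 : (0 : ℝ) ≤ X := Nat.cast_nonneg X
    have h2 : ((2 : ℝ) ^ u) ^ 2 ≤ (4 * √X) ^ 2 := by
      rw [← pow_mul, mul_comm u 2, pow_mul, mul_pow, Real.sq_sqrt hx0]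
      norm_num
      linarith
    exact le_of_sq_le_sq h2 (by positivity) |> fun h => h
  · have hX0 : (0 : ℝ) < X := by exact_mod_cast hX
    have h2 : (u : ℝ) ≤ 11 + Real.log X := by
      have h3 : (u : ℝ) * Real.log 4 ≤ Real.log 12 + Real.log X := by
        rw [← Real.log_pow, ← Real.log_mul (by norm_num) hX0.ne']
        exact Real.log_le_log (by positivity) h1'
      have h4 : (1 : ℝ) ≤ Real.log 4 := by
        rw [Real.le_log_iff_exp_le (by norm_num)]
        have := Real.exp_one_lt_d9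
        linarith
      have h5 : Real.log 12 ≤ 11 := by
        have := Real.log_le_sub_one_of_pos (x := 12) (by norm_num)
        linarith
      have h6 : (0 : ℝ) ≤ u := Nat.cast_nonneg u
      nlinarith
    linarith

theorem hHg (hd : StDec) (hm : StMea) (h0 : StSu0) (ht : StTg) : StHg := by
  intro w hw
  obtain ⟨K, C, hC, hKc, hKb, hGA⟩ := hd w hw
  obtain ⟨C₀, hmean⟩ := PP_mean hm
  obtain ⟨η₁, hη₁, hη₁', htg⟩ := ht
  refine ⟨η₁, hη₁, hη₁', fun η hη hηle => ?_⟩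
  obtain ⟨X1, hX1two, htup⟩ := htg η hη hηle
  have hη100 : η ≤ 1 / 100 := hηle.trans hη₁'
  set I : ℝ := ∫ ξ, hh ξ with hI
  have hI0 : 0 ≤ I := integral_nonneg fun ξ => (hh_pos ξ).le
  -- the constants
  set κ : ℝ := 7 ^ 8 * (C * Real.pi) * (C * I) with hκ
  have hκ0 : 0 ≤ κ := by positivity
  set c₁ : ℝ := 3 * C₀ * 7 ^ 8 * 28 ^ C₀ with hc₁
  have hc₁0 : 0 ≤ c₁ := by positivity
  obtain ⟨X2, hX2⟩ : ∃ X2 : ℕ, ∀ X : ℕ, X2 ≤ X → X1 ≤ X ∧ 5 ≤ Real.log X ∧
      3 * κ * Real.log X ^ 8 ≤ (X : ℝ) ^ (η / 200) ∧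
      3 * κ * (2 * c₁) * Real.log X ^ (16 + C₀) ≤ (X : ℝ) ^ (11 * η / 200) ∧
      3 * κ * 98 * Real.log X ^ 10 ≤ (X : ℝ) ^ (1 / 8 : ℝ) ∧ 1 ≤ X := by
    have hlog : Tendsto (fun X : ℕ => Real.log (X : ℝ)) atTop atTop :=
      Real.tendsto_log_atTop.comp tendsto_natCast_atTop_atTop
    have h := (eventually_ge_atTop X1).and ((hlog.eventually_ge_atTop 5).and
      ((ev_log (3 * κ) (η / 200) 8 (by positivity)).and
      ((ev_log (3 * κ * (2 * c₁)) (11 * η / 200) (16 + C₀) (by positivity)).and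
      ((ev_log (3 * κ * 98) (1 / 8) 10 (by norm_num)).and
      (eventually_ge_atTop 1)))))
    obtain ⟨X2, hX2⟩ := eventually_atTop.1 h
    exact ⟨X2, fun X hX => hX2 X hX⟩
  refine ⟨max 2 X2, le_max_left _ _, fun X c hX hq => ?_⟩
  have hχ : ∃ χ : DirichletCharacter ℂ c.r, χ = c.χ := ⟨_, rfl⟩
  obtain ⟨χ, hχ⟩ := hχ
  rw [← hχ]
  obtain ⟨hX1, hL5, hLa, hLb', hLc, hX0⟩ := hX2 X ((le_max_right _ _).trans hX)
  set L : ℝ := Real.log X with hL
  have hL1 : 1 ≤ L := by linarith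
  have hL0 : 0 < L := by linarith
  have hXr : (1 : ℝ) ≤ X := by exact_mod_cast hX0
  have hXr0 : (0 : ℝ) < X := by linarith
  obtain ⟨u, hu1, hu2, hu3⟩ := exists_u X hX0 hL5
  set V : ℝ := (X : ℝ) ^ (1 / 2 + η / 400) with hV
  have hV0 : 0 < V := by positivity
  set W : ℝ := (X : ℝ) ^ (η / 10) with hW
  have hW0 : 0 < W := by positivity
  have hWV : W ≤ V := Real.rpow_le_rpow_of_exponent_le hXr (by linarith)
  have hVX : V ≤ X := by
    calc V ≤ (X : ℝ) ^ (1 : ℝ) := Real.rpow_le_rpow_of_exponent_le hXr (by linarith)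
      _ = X := Real.rpow_one _
  set R : Set ℝ := Gd c η X with hR
  have hRdef : R = {t | W ≤ |t|} ∩ {t | |t| ≤ V} ∩
      {t | ∀ ρ ∈ ZF c (2 * η) X, W ≤ |ρ.im - t|} := by
    ext t
    simp only [hR, Gd, Set.mem_setOf_eq, Set.mem_inter_iff, hW, hV, and_assoc]
  have hcl : ∀ a : ℝ, IsClosed {t : ℝ | ∀ ρ ∈ ZF c (2 * η) X, a ≤ |ρ.im - t|} := by
    intro a
    have e : {t : ℝ | ∀ ρ ∈ ZF c (2 * η) X, a ≤ |ρ.im - t|} =
        ⋂ ρ ∈ ZF c (2 * η) X, {t : ℝ | a ≤ |ρ.im - t|} := by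
      ext t
      simp
    rw [e]
    apply isClosed_biInter
    intro ρ _
    exact isClosed_le continuous_const (by fun_prop)
  have hRm : MeasurableSet R := by
    rw [hRdef]
    apply MeasurableSet.inter (MeasurableSet.inter _ _) _
    · exact (isClosed_le continuous_const continuous_abs).measurableSet
    · exact (isClosed_le continuous_abs continuous_const).measurableSet
    · exact (hcl W).measurableSet
  have hRsub : R ⊆ Set.Icc (-V) V := by
    intro t ht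
    rw [hRdef] at ht
    exact abs_le.1 ht.1.2
  have hRfin : volume R ≠ ⊤ := by
    refine ((measure_mono hRsub).trans_lt ?_).ne
    rw [Real.volume_Icc]
    exact ENNReal.ofReal_lt_top
  have hRvol : volume.real R ≤ 2 * V := by
    calc volume.real R ≤ volume.real (Set.Icc (-V) V) :=
          measureReal_mono hRsub (by rw [Real.volume_Icc]; exact ENNReal.ofReal_ne_top)
      _ = 2 * V := by
          rw [Real.volume_real_Icc_of_le (by linarith)]
          ring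
  set E := (EU u).filter (fun e => X ≤ 2 ^ (∑ i, e i) ∧ 2 ^ (∑ i, e i) ≤ 64 * X) with hE
  have hEcard : (E.card : ℝ) ≤ (7 * L) ^ 4 := by
    have h1 : E.card ≤ (2 * u + 1) ^ 4 := by
      calc E.card ≤ (EU u).card := Finset.card_filter_le _ _
        _ ≤ (Fintype.piFinset (fun _ : Fin 4 => range (2 * u + 1))).card :=
            Finset.card_filter_le _ _
        _ = (2 * u + 1) ^ 4 := by simp
    calc (E.card : ℝ) ≤ ((2 * u + 1 : ℕ) : ℝ) ^ 4 := by exact_mod_cast h1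
      _ ≤ (7 * L) ^ 4 := by
          gcongr
          push_cast
          exact hu3
  have hEmem : ∀ e ∈ E, (∀ i, (e i : ℝ) ≤ 2 * u) ∧ e 0 ≤ u ∧ e 1 ≤ u ∧
      X ≤ 2 ^ (∑ i, e i) ∧ 2 ^ (∑ i, e i) ≤ 64 * X := by
    intro e he
    rw [hE, Finset.mem_filter, EU, Finset.mem_filter, Fintype.mem_piFinset] at he
    obtain ⟨⟨h1, h2, h3⟩, h4, h5⟩ := he
    refine ⟨fun i => ?_, h2, h3, h4, h5⟩
    have := h1 i
    rw [Finset.mem_range] at this
    have h6 : e i ≤ 2 * u := by omega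
    exact_mod_cast h6
  set M : ℝ := 7 * L with hM
  have hPM : ∀ e ∈ E, ∀ t, ‖PP χ e t‖ ≤ M := by
    intro e he t
    have h1 := PP_bd h0 χ e t
    have h2 := (hEmem e he).1 2
    linarith
  set Y : ℝ := W / 2 with hY
  have hY0 : 0 < Y := by positivity
  set Bd : ℝ := C * ((X : ℝ) ^ (-(η / 40)) + Y ^ (-(3 / 4) : ℝ) * (c₁ * L ^ (8 + C₀)) +
    (X : ℝ) ^ (-(3 / 4) : ℝ) * (2 * V * M ^ 2)) with hBd
  have hT1 : 0 ≤ (X : ℝ) ^ (-(η / 40)) := by positivity
  have hT2 : 0 ≤ Y ^ (-(3 / 4) : ℝ) * (c₁ * L ^ (8 + C₀)) := by positivity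
  have hT3 : 0 ≤ (X : ℝ) ^ (-(3 / 4) : ℝ) * (2 * V * M ^ 2) := by positivity
  -- the integrals over `R`
  have hJ : ∀ e ∈ E, ∀ ξ : ℝ, C / (1 + ξ ^ 2) * ∫ t in R, ‖PP χ e (t - ξ)‖ ^ 2 ≤ Bd * hh ξ := by
    intro e he ξ
    obtain ⟨g1, g2, g3, g4, g5⟩ := hEmem e he
    have hk0 : 0 ≤ C / (1 + ξ ^ 2) := by positivity
    have hJ0 : 0 ≤ ∫ t in R, ‖PP χ e (t - ξ)‖ ^ 2 := integral_nonneg fun t => by positivity
    have hhp := hh_pos ξ
    have hk : C / (1 + ξ ^ 2) = C * (1 / (1 + ξ ^ 2)) := by ring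
    rcases le_or_gt |ξ| Y with hξ | hξ
    · -- small frequencies
      have h1 : ∫ t in R, ‖PP χ e (t - ξ)‖ ^ 2 ≤ (X : ℝ) ^ (-(η / 40)) := by
        have h2 := htup X c e hX1 hq ?_ ?_ g4 g5
        · rw [← hχ] at h2
          refine le_trans ?_ h2
          apply shift_le (fun t => ‖PP χ e t‖ ^ 2) (fun t => by positivity) R _ hRm
          · have e2 : {t : ℝ | (X : ℝ) ^ (η / 10) / 2 ≤ |t| ∧
                |t| ≤ 2 * (X : ℝ) ^ (1 / 2 + η / 400) ∧
                ∀ ρ ∈ ZF c (2 * η) X, (X : ℝ) ^ (η / 10) / 2 ≤ |ρ.im - t|} =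
                {t : ℝ | (X : ℝ) ^ (η / 10) / 2 ≤ |t|} ∩
                {t : ℝ | |t| ≤ 2 * (X : ℝ) ^ (1 / 2 + η / 400)} ∩
                {t : ℝ | ∀ ρ ∈ ZF c (2 * η) X, (X : ℝ) ^ (η / 10) / 2 ≤ |ρ.im - t|} := by
              ext t
              simp only [Set.mem_setOf_eq, Set.mem_inter_iff, and_assoc]
            rw [e2]
            apply MeasurableSet.inter (MeasurableSet.inter _ _) _
            · exact (isClosed_le continuous_const continuous_abs).measurableSet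
            · exact (isClosed_le continuous_abs continuous_const).measurableSet
            · exact (hcl _).measurableSet
          · intro t ht
            rw [hRdef] at ht
            obtain ⟨⟨ht1, ht2⟩, ht3⟩ := ht
            have h3 : |t + ξ| - |ξ| ≤ |t| := by
              have := abs_sub_abs_le_abs_sub (t + ξ) ξ
              rwa [show t + ξ - ξ = t by ring] at this
            have h4 : |t| ≤ |t + ξ| + |ξ| := by
              have := abs_sub (t + ξ) ξ
              rwa [show t + ξ - ξ = t by ring] at this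
            refine ⟨?_, ?_, ?_⟩
            · have h5 : W ≤ |t + ξ| := ht1
              rw [← hW]
              linarith
            · have h5 : |t + ξ| ≤ V := ht2
              rw [← hV]
              linarith
            · intro ρ hρ
              have h5 : W ≤ |ρ.im - (t + ξ)| := ht3 ρ hρ
              have h6 : |ρ.im - (t + ξ)| ≤ |ρ.im - t| + |ξ| := by
                have := abs_sub (ρ.im - t) ξ
                rwa [show ρ.im - t - ξ = ρ.im - (t + ξ) by ring] at this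
              rw [← hW]
              linarith
          · apply IntegrableOn.mono_set (t := Set.Icc (-(2 * V)) (2 * V))
            · exact ((PP_cont χ e).norm.pow 2).integrableOn_Icc
            · intro t ht
              exact abs_le.1 ht.2.1
        · have h3 : (2 : ℝ) ^ e 0 ≤ 2 ^ u := pow_le_pow_right₀ (by norm_num) g2
          linarith
        · have h3 : (2 : ℝ) ^ e 1 ≤ 2 ^ u := pow_le_pow_right₀ (by norm_num) g3
          linarith
      calc C / (1 + ξ ^ 2) * ∫ t in R, ‖PP χ e (t - ξ)‖ ^ 2 ≤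
          (C * hh ξ) * ((X : ℝ) ^ (-(η / 40))) := by
            apply mul_le_mul _ h1 hJ0 (by positivity)
            rw [hk]
            exact mul_le_mul_of_nonneg_left (inv_le_hh ξ) hC.le
        _ = C * ((X : ℝ) ^ (-(η / 40))) * hh ξ := by ring
        _ ≤ Bd * hh ξ := by
            apply mul_le_mul_of_nonneg_right _ hhp.le
            rw [hBd]
            apply mul_le_mul_of_nonneg_left _ hC.le
            linarith
    · rcases le_or_gt |ξ| X with hξ2 | hξ2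
      · -- middle frequencies
        have h1 : ∫ t in R, ‖PP χ e (t - ξ)‖ ^ 2 ≤ c₁ * L ^ (8 + C₀) := by
          have h2 := hmean χ e M (2 * X) (by linarith) (by rw [hM]; linarith)
            (by rw [hM]; linarith [g1 2])
          have h3 : ∫ t in R, ‖PP χ e (t - ξ)‖ ^ 2 ≤
              ∫ t in Set.Icc (-(2 * (X : ℝ))) (2 * X), ‖PP χ e t‖ ^ 2 := by
            apply shift_le (fun t => ‖PP χ e t‖ ^ 2) (fun t => by positivity) R _ hRm
              measurableSet_Icc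
            · intro t ht
              rw [hRdef] at ht
              have h4 : |t| ≤ |t + ξ| + |ξ| := by
                have := abs_sub (t + ξ) ξ
                rwa [show t + ξ - ξ = t by ring] at this
              have h5 : |t + ξ| ≤ V := ht.1.2
              exact abs_le.1 (by linarith)
            · exact ((PP_cont χ e).norm.pow 2).integrableOn_Icc
          have h4 : ∫ t in Set.Icc (-(2 * (X : ℝ))) (2 * X), ‖PP χ e t‖ ^ 2 =
              ∫ t in (-(2 * (X : ℝ)))..(2 * X), ‖PP χ e t‖ ^ 2 := by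
            rw [intervalIntegral.integral_of_le (by linarith), integral_Icc_eq_integral_Ioc]
          rw [h4] at h3
          refine (h3.trans h2).trans ?_
          have h5 : 2 * (X : ℝ) / 2 ^ (∑ i, e i) + 1 ≤ 3 := by
            have h6 : (X : ℝ) ≤ 2 ^ (∑ i, e i) := by exact_mod_cast g4
            have h7 : 2 * (X : ℝ) / 2 ^ (∑ i, e i) ≤ 2 := by
              rw [div_le_iff₀ (by positivity)]
              linarith
            linarith
          have h6 : 1 + ∑ i, (e i : ℝ) ≤ 28 * L := by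
            rw [Fin.sum_univ_four]
            have := g1 0
            have := g1 1
            have := g1 2
            have := g1 3
            linarith
          have h7 : 0 ≤ 1 + ∑ i, (e i : ℝ) := by positivity
          calc (C₀ : ℝ) * M ^ 8 * (2 * X / 2 ^ (∑ i, e i) + 1) * (1 + ∑ i, (e i : ℝ)) ^ C₀
              ≤ C₀ * M ^ 8 * 3 * (28 * L) ^ C₀ := by gcongr
            _ = c₁ * L ^ (8 + C₀) := by
                rw [hM, hc₁, mul_pow, mul_pow, pow_add]
                ring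
        calc C / (1 + ξ ^ 2) * ∫ t in R, ‖PP χ e (t - ξ)‖ ^ 2 ≤
            (C * (Y ^ (-(3 / 4) : ℝ) * hh ξ)) * (c₁ * L ^ (8 + C₀)) := by
              apply mul_le_mul _ h1 hJ0 (by positivity)
              rw [hk]
              exact mul_le_mul_of_nonneg_left (inv_le_hh' ξ Y hY0 hξ.le) hC.le
          _ = C * (Y ^ (-(3 / 4) : ℝ) * (c₁ * L ^ (8 + C₀))) * hh ξ := by ring
          _ ≤ Bd * hh ξ := by
              apply mul_le_mul_of_nonneg_right _ hhp.le
              rw [hBd]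
              apply mul_le_mul_of_nonneg_left _ hC.le
              linarith
      · -- large frequencies
        have h1 : ∫ t in R, ‖PP χ e (t - ξ)‖ ^ 2 ≤ 2 * V * M ^ 2 := by
          calc ∫ t in R, ‖PP χ e (t - ξ)‖ ^ 2 ≤ ∫ t in R, M ^ 2 := by
                apply integral_mono_of_nonneg
                · exact Eventually.of_forall fun t => by positivity
                · exact integrableOn_const hRfin
                · refine Eventually.of_forall fun t => ?_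
                  exact pow_le_pow_left₀ (norm_nonneg _) (hPM e he _) 2
            _ = volume.real R * M ^ 2 := by rw [setIntegral_const, smul_eq_mul]
            _ ≤ _ := by gcongr
        calc C / (1 + ξ ^ 2) * ∫ t in R, ‖PP χ e (t - ξ)‖ ^ 2 ≤
            (C * ((X : ℝ) ^ (-(3 / 4) : ℝ) * hh ξ)) * (2 * V * M ^ 2) := by
              apply mul_le_mul _ h1 hJ0 (by positivity)
              rw [hk]
              exact mul_le_mul_of_nonneg_left (inv_le_hh' ξ X hXr0 hξ2.le) hC.le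
          _ = C * ((X : ℝ) ^ (-(3 / 4) : ℝ) * (2 * V * M ^ 2)) * hh ξ := by ring
          _ ≤ Bd * hh ξ := by
              apply mul_le_mul_of_nonneg_right _ hhp.le
              rw [hBd]
              apply mul_le_mul_of_nonneg_left _ hC.le
              linarith
  have hmain := conv_bound E K C hC hKb (fun e => PP χ e) (fun e _ => PP_cont χ e) M hPM
    (fun ξ => Complex.exp (((-(ξ * Real.log X) : ℝ) : ℂ) * Complex.I))
    (fun ξ => Complex.norm_exp_ofReal_mul_I _)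
    (fun e => if e 1 = 0 ∧ e 3 = 0 then (1 : ℂ) else -1)
    (fun e _ => by split_ifs <;> simp) (fun t => GA w χ X t)
    (fun t => hGA c.r χ X u t hX0 hu1) R hRfin Bd hJ
  refine hmain.trans ?_
  -- numerics
  have hYb : Y ^ (-(3 / 4) : ℝ) ≤ 2 * (X : ℝ) ^ (-(3 * η / 40)) := by
    rw [hY, Real.div_rpow hW0.le (by norm_num), hW, ← Real.rpow_mul hXr0.le]
    have h1 : η / 10 * -(3 / 4) = -(3 * η / 40) := by ring
    have h2 : (1 / 2 : ℝ) ≤ (2 : ℝ) ^ (-(3 / 4) : ℝ) := by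
      calc (1 / 2 : ℝ) = (2 : ℝ) ^ (-1 : ℝ) := by
            rw [Real.rpow_neg_one]
            norm_num
        _ ≤ _ := Real.rpow_le_rpow_of_exponent_le (by norm_num) (by norm_num)
    rw [h1, div_le_iff₀ (by positivity)]
    have h3 : 0 < (X : ℝ) ^ (-(3 * η / 40)) := by positivity
    calc (X : ℝ) ^ (-(3 * η / 40)) = 2 * (X : ℝ) ^ (-(3 * η / 40)) * (1 / 2) := by ring
      _ ≤ _ := by gcongr
  have hBdle : Bd ≤ C * ((X : ℝ) ^ (-(η / 40)) +
      2 * (X : ℝ) ^ (-(3 * η / 40)) * (c₁ * L ^ (8 + C₀)) +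
      (X : ℝ) ^ (-(3 / 4) : ℝ) * (2 * V * M ^ 2)) := by
    rw [hBd]
    gcongr
  have hBd0 : 0 ≤ Bd := by
    rw [hBd]
    positivity
  have hXV : (X : ℝ) ^ (-(3 / 4) : ℝ) * V = (X : ℝ) ^ (-(1 / 4) + η / 400) := by
    rw [hV, ← Real.rpow_add hXr0]
    congr 1
    ring
  set A0 : ℝ := (X : ℝ) ^ (-(η / 50)) with hA0
  have hA0p : 0 < A0 := by positivity
  have n1 : κ * L ^ 8 * (X : ℝ) ^ (-(η / 40)) ≤ A0 / 3 := by
    have h1 : A0 = (X : ℝ) ^ (η / 200) * (X : ℝ) ^ (-(η / 40)) := by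
      rw [hA0, ← Real.rpow_add hXr0]
      congr 1
      ring
    have h2 : 0 < (X : ℝ) ^ (-(η / 40)) := by positivity
    rw [h1]
    nlinarith
  have n2 : κ * L ^ 8 * (2 * (X : ℝ) ^ (-(3 * η / 40)) * (c₁ * L ^ (8 + C₀))) ≤ A0 / 3 := by
    have h1 : A0 = (X : ℝ) ^ (11 * η / 200) * (X : ℝ) ^ (-(3 * η / 40)) := by
      rw [hA0, ← Real.rpow_add hXr0]
      congr 1
      ring
    have h2 : 0 < (X : ℝ) ^ (-(3 * η / 40)) := by positivity
    have h3 : L ^ (16 + C₀) = L ^ 8 * L ^ (8 + C₀) := by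
      rw [← pow_add]
      congr 1
      ring
    rw [h1]
    calc κ * L ^ 8 * (2 * (X : ℝ) ^ (-(3 * η / 40)) * (c₁ * L ^ (8 + C₀))) =
        (3 * κ * (2 * c₁) * L ^ (16 + C₀)) * (X : ℝ) ^ (-(3 * η / 40)) / 3 := by
          rw [h3]
          ring
      _ ≤ _ := by gcongr
  have n3 : κ * L ^ 8 * ((X : ℝ) ^ (-(3 / 4) : ℝ) * (2 * V * M ^ 2)) ≤ A0 / 3 := by
    have h1 : (X : ℝ) ^ (1 / 8 : ℝ) * (X : ℝ) ^ (-(1 / 4) + η / 400) ≤ A0 := by
      rw [hA0, ← Real.rpow_add hXr0]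
      apply Real.rpow_le_rpow_of_exponent_le hXr
      linarith
    have h2 : 0 < (X : ℝ) ^ (-(1 / 4) + η / 400) := by positivity
    calc κ * L ^ 8 * ((X : ℝ) ^ (-(3 / 4) : ℝ) * (2 * V * M ^ 2)) =
        (3 * κ * 98 * L ^ 10) * ((X : ℝ) ^ (-(3 / 4) : ℝ) * V) / 3 := by
          rw [hM]
          ring
      _ = (3 * κ * 98 * L ^ 10) * (X : ℝ) ^ (-(1 / 4) + η / 400) / 3 := by rw [hXV]
      _ ≤ ((X : ℝ) ^ (1 / 8 : ℝ)) * (X : ℝ) ^ (-(1 / 4) + η / 400) / 3 := by gcongr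
      _ ≤ A0 / 3 := by gcongr
  calc (E.card : ℝ) ^ 2 * (C * Real.pi) * (Bd * ∫ ξ, hh ξ) ≤
      ((7 * L) ^ 4) ^ 2 * (C * Real.pi) * ((C * ((X : ℝ) ^ (-(η / 40)) +
        2 * (X : ℝ) ^ (-(3 * η / 40)) * (c₁ * L ^ (8 + C₀)) +
        (X : ℝ) ^ (-(3 / 4) : ℝ) * (2 * V * M ^ 2))) * I) := by
        rw [← hI]
        gcongr
    _ = κ * L ^ 8 * (X : ℝ) ^ (-(η / 40)) +
        κ * L ^ 8 * (2 * (X : ℝ) ^ (-(3 * η / 40)) * (c₁ * L ^ (8 + C₀))) +
        κ * L ^ 8 * ((X : ℝ) ^ (-(3 / 4) : ℝ) * (2 * V * M ^ 2)) := by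
        rw [hκ]
        ring
    _ ≤ A0 / 3 + A0 / 3 + A0 / 3 := add_le_add (add_le_add n1 n2) n3
    _ = A0 := by ring

end Pool.Agent.Helper28.MV
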