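import Pool.Agent.Helper23.MV.StE

/-!
# Project MV (MP_b454d1_nt), module PRD (helper28): products of primitive characters
-/

set_option autoImplicit false

namespace Pool.Agent.Helper28.MV

open Pool.Agent.Helper23.MV

private lemma cl_cop_PRD {r N : ℕ} (χ : DirichletCharacter ℂ r) (h : r ∣ N) {n : ℕ}
    (hn : n.Coprime N) :
    DirichletCharacter.changeLevel h χ (n : ZMod N) = χ (n : ZMod r) := by
  have ha : IsCoprime (n : ℤ) (N : ℤ) := Nat.isCoprime_iff_coprime.mpr hn
  have := DirichletCharacter.changeLevel_eq_cast_of_dvd' χ h ha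
  simpa using this

private lemma zero_PRD {r : ℕ} (χ : DirichletCharacter ℂ r) {n : ℕ} (hn : ¬ n.Coprime r) :
    χ (n : ZMod r) = 0 := by
  apply MulChar.map_nonunit
  rwa [ZMod.isUnit_iff_coprime]

private lemma eq_PRD (c₁ c₂ : PCh) {N : ℕ} [NeZero N] (h₁ : c₁.r ∣ N) (h₂ : c₂.r ∣ N)
    (h : DirichletCharacter.changeLevel h₁ c₁.χ = DirichletCharacter.changeLevel h₂ c₂.χ) :
    c₁ = c₂ := by
  have e1 := DirichletCharacter.conductor_changeLevel c₁.χ h₁
  have e2 := DirichletCharacter.conductor_changeLevel c₂.χ h₂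
  have p1 : c₁.χ.conductor = c₁.r := c₁.prim
  have p2 : c₂.χ.conductor = c₂.r := c₂.prim
  have hr : c₁.r = c₂.r := by rw [← p1, ← p2, ← e1, ← e2, h]
  obtain ⟨r, hr0, χ, hp⟩ := c₁
  obtain ⟨r', hr0', χ', hp'⟩ := c₂
  simp only at hr
  subst hr
  have := DirichletCharacter.changeLevel_injective h₁ h
  simp only at this
  subst this
  rfl

theorem hPrd : StPrd := by
  refine ⟨?_, ?_, ?_⟩
  · intro c₁ c₂ hne
    have hN : NeZero (c₁.r * c₂.r) := ⟨mul_ne_zero c₁.hr c₂.hr⟩
    set N := c₁.r * c₂.r with hNdef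
    have h₁ : c₁.r ∣ N := Dvd.intro _ rfl
    have h₂ : c₂.r ∣ N := Dvd.intro_left _ rfl
    refine ⟨DirichletCharacter.changeLevel h₁ c₁.χ *
      (DirichletCharacter.changeLevel h₂ c₂.χ)⁻¹, ?_, ?_⟩
    · intro h
      exact hne (eq_PRD c₁ c₂ h₁ h₂ (mul_inv_eq_one.mp h))
    · intro n
      rw [MulChar.mul_apply, ← MulChar.star_eq_inv]
      by_cases hn : n.Coprime N
      · rw [MulChar.star_apply, cl_cop_PRD c₁.χ h₁ hn, cl_cop_PRD c₂.χ h₂ hn]
        rfl
      · rw [zero_PRD _ hn, zero_mul]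
        rw [hNdef, Nat.coprime_mul_iff_right, not_and_or] at hn
        rcases hn with hn | hn
        · rw [PCh.ev, zero_PRD _ hn, zero_mul]
        · rw [PCh.ev, PCh.ev, zero_PRD c₂.χ hn, map_zero, mul_zero]
  · intro c n
    by_cases hn : n.Coprime c.r
    · have hu : IsUnit (n : ZMod c.r) := by rwa [ZMod.isUnit_iff_coprime]
      rw [MulChar.one_apply hu, PCh.ev, Complex.mul_conj, Complex.normSq_eq_norm_sq]
      have := DirichletCharacter.unit_norm_eq_one c.χ hu.unit
      rw [IsUnit.unit_spec] at this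
      rw [this]
      norm_num
    · rw [zero_PRD _ hn, PCh.ev, zero_PRD _ hn, zero_mul]
  · intro c e he
    have hN : NeZero (c.r * e.r) := ⟨mul_ne_zero c.hr e.hr⟩
    set N := c.r * e.r with hNdef
    have h₁ : c.r ∣ N := Dvd.intro _ rfl
    have h₂ : e.r ∣ N := Dvd.intro_left _ rfl
    have hsq : DirichletCharacter.changeLevel h₂ e.χ * DirichletCharacter.changeLevel h₂ e.χ = 1 := by
      rw [← map_mul, ← sq, he, map_one]
    refine ⟨DirichletCharacter.changeLevel h₁ c.χ * DirichletCharacter.changeLevel h₂ e.χ,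
      ⟨?_, ?_⟩, ?_⟩
    · intro h
      exact eq_PRD c e h₁ h₂ (mul_right_cancel (h.trans hsq.symm))
    · intro h
      subst h
      exact hsq
    · intro n
      rw [MulChar.mul_apply]
      by_cases hn : n.Coprime N
      · rw [cl_cop_PRD c.χ h₁ hn, cl_cop_PRD e.χ h₂ hn]
        rfl
      · rw [zero_PRD _ hn, zero_mul]
        rw [hNdef, Nat.coprime_mul_iff_right, not_and_or] at hn
        rcases hn with hn | hn
        · rw [PCh.ev, zero_PRD _ hn, zero_mul]
        · rw [PCh.ev, PCh.ev, zero_PRD e.χ hn, mul_zero]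

end Pool.Agent.Helper28.MV
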